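import Pool.Agent.Q183.DN.Spc

/-!
# The Day–Nordlander type bound for the modulus `γ⁺` fails in dimension two

`values X ε` is the set of all numbers `⟨p₁ - p₂, x₁ - x₂⟩` with `‖x₁‖ = ‖x₂‖ = 1`,
`‖x₁ - x₂‖ = ε`, `pᵢ ∈ J₁(xᵢ)`; `gammaPlus X ε` is its supremum, `gammaMinus X ε` its infimum.
For the plane `X` with `‖(x, y)‖^24 = x^24 + y^24 + ((x + y)^24 + (x - y)^24) / 4096` (a subspace of
the four-dimensional `ℓ₂₄`) and `ε = 41 / 50` the supremum is at most `ε² - 1/1000`.

Proof: the norming functional of a unit vector is unique, so that the values are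
`∑ (aⱼ^23 - bⱼ^23) (aⱼ - bⱼ)` for the four coordinates `aⱼ, bⱼ` of `x₁, x₂`. The unit sphere is
covered by `8 · 130` small arcs on each of which all four coordinates lie in short intervals
(they are monotone); for each of the `130 · 1040` pairs of arcs (up to symmetry) either the distance
is always different from `ε`, or the value is always below the bound: checked by the kernel in
integer arithmetic.
-/

set_option autoImplicit false

namespace Pool.Agent.Results.MP_a1f11a_an.UpperModulusTooSmall

open Pool.Agent.Q183.DN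

theorem result :
    (∃ (X : Type) (_ : NormedAddCommGroup X) (_ : NormedSpace ℝ X),
      Module.finrank ℝ X = 2 ∧ (values X (41 / 50)).Nonempty ∧ BddAbove (values X (41 / 50)) ∧
        gammaPlus X (41 / 50) ≤ (41 / 50) ^ 2 - 1 / 1000) ∧
    ¬ ∀ (X : Type) [NormedAddCommGroup X] [NormedSpace ℝ X] [FiniteDimensional ℝ X],
      2 ≤ Module.finrank ℝ X → ∀ ε ∈ Set.Icc (0 : ℝ) 2,
        gammaMinus X ε ≤ ε ^ 2 ∧ ε ^ 2 ≤ gammaPlus X ε := by
  have h1 : gammaPlus XX (41 / 50) ≤ (41 / 50) ^ 2 - 1 / 1000 := by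
    refine (csSup_le values_nonempty fun r hr => value_le hr).trans ?_
    norm_num
  refine ⟨⟨XX, inferInstance, inferInstance, finrank_XX, values_nonempty,
    ⟨6714 / 10000, fun r hr => value_le hr⟩, h1⟩, ?_⟩
  intro h
  have h2 := (h XX (by rw [finrank_XX]) (41 / 50) ⟨by norm_num, by norm_num⟩).2
  norm_num at h1 h2
  linarith

end Pool.Agent.Results.MP_a1f11a_an.UpperModulusTooSmall
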